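import Pool.Agent.Lib.MP_c6e9f4_al.Bnd.FN

/-!
# The index of permutability of permutation groups with few nonabelian simple sections

Let `S` be a finite set of orders. If all nonabelian simple sections of a normal subgroup `N` of a
permutation group `H` of degree `n` have their orders in `S`, then the index of permutability of `H`
is at most `|H : N| exp (C n ^ (1 - 2 ^ (-max |S| 1)) (log n) ^ k)`.
-/

set_option autoImplicit false

namespace Pool.Agent.Results.MP_c6e9f4_al.BoundedSections

open Pool.Agent.Lib.MP_c6e9f4_al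

theorem result (S : Finset ℕ) : ∃ (C : ℝ) (k : ℕ), ∀ n : ℕ, 2 ≤ n →
    ∀ (H : Subgroup (Equiv.Perm (Fin n))) (N : Subgroup H), N.Normal → Bnd.SS S N →
    (permIndex H : ℝ) ≤ N.index *
      Real.exp (C * (n : ℝ) ^ (1 - (1 / 2 : ℝ) ^ max S.card 1) * Real.log n ^ k) :=
  Bnd.permIndex_bounded S

end Pool.Agent.Results.MP_c6e9f4_al.BoundedSections
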