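import Pool.Agent.Lib.MP_c6e9f4_al.Exp.Z3
import Pool.Agent.Lib.MP_c6e9f4_al.Exp.Z4

/-!
# An exponential upper bound for the index of permutability of the symmetric groups

There is a constant `C` such that, for every `n`, every sequence of at least `C ^ n` permutations of
`n` points has a nonempty subsequence (in the given order) with product one; consequently the index
of permutability of the symmetric group of degree `n` is at most `2 * C ^ n`.
-/

set_option autoImplicit false

namespace Pool.Agent.Results.MP_c6e9f4_al.ExponentialUpper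

open Pool.Agent.Lib.MP_c6e9f4_al

theorem result : ∃ C : ℕ, ∀ n : ℕ,
    permIndex (Equiv.Perm (Fin n)) ≤ 2 * C ^ n ∧
    ∀ l : List (Equiv.Perm (Fin n)), C ^ n ≤ l.length →
      ∃ s : List (Equiv.Perm (Fin n)), s.Sublist l ∧ s ≠ [] ∧ s.prod = 1 := by
  obtain ⟨C, hC⟩ := Exp.DN_exp
  refine ⟨C, fun n => ?_⟩
  have h : Exp.DB (Set.univ : Set (Equiv.Perm (Fin n))) ((C : ℝ) ^ n) :=
    hC n (Fin n) (Fintype.card_fin n)
  have h1 : (1 : ℝ) ≤ (C : ℝ) ^ n := by
    have h0 : Exp.Bad ([] : List (Equiv.Perm (Fin n))) := by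
      intro s hs hne
      exact absurd (List.sublist_nil.1 hs) hne
    have := h [] (fun g hg => by simp at hg) h0
    simpa using this
  have h1' : 1 ≤ C ^ n := by exact_mod_cast h1
  refine ⟨?_, ?_⟩
  · apply Exp.permIndex_le_of_DB (C ^ n) h1'
    push_cast
    exact h
  · intro l hl
    by_contra hcon
    push Not at hcon
    have hb : Exp.Bad l := fun s hs hne => hcon s hs hne
    have h2 := h l (fun g _ => Set.mem_univ g) hb
    have h3 : ((C ^ n : ℕ) : ℝ) ≤ (l.length : ℝ) := by exact_mod_cast hl
    push_cast at h3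
    linarith

end Pool.Agent.Results.MP_c6e9f4_al.ExponentialUpper
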