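import Pool.Agent.Lib.MP_c6e9f4_al.Nil.F1
import Pool.Agent.Lib.MP_c6e9f4_al.Nil.H2

/-!
# The index of permutability of nilpotent permutation groups

The maximum of the logarithm of the index of permutability over the nilpotent subgroups of the
symmetric group of degree `n` has exact order `(n log n)^(1/3)`.
-/

set_option autoImplicit false

namespace Pool.Agent.Results.MP_c6e9f4_al.NilpotentOrder

open Pool.Agent.Lib.MP_c6e9f4_al

theorem result :
    (∃ C : ℝ, ∀ n : ℕ, 2 ≤ n → ∀ H : Subgroup (Equiv.Perm (Fin n)), Group.IsNilpotent H →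
      (permIndex H : ℝ) ≤ Real.exp (C * ((n : ℝ) * Real.log n) ^ ((1 : ℝ) / 3))) ∧
    (∀ᶠ n : ℕ in Filter.atTop, ∃ H : Subgroup (Equiv.Perm (Fin n)), Group.IsNilpotent H ∧
      Real.exp (1 / 8 * ((n : ℝ) * Real.log n) ^ ((1 : ℝ) / 3)) ≤ (permIndex H : ℝ)) :=
  ⟨Nil.nilpotent_upper, Nil.nilpotent_lower⟩

end Pool.Agent.Results.MP_c6e9f4_al.NilpotentOrder
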