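import Pool.Agent.Lib.MP_c6e9f4_al.Asymp2

set_option autoImplicit false

namespace Pool.Agent.Results.MP_c6e9f4_al.SuperpolynomialLower

open Pool.Agent.Lib.MP_c6e9f4_al

/-- For all sufficiently large `n`, the index of permutability of the symmetric group of degree
`n` is at least `exp ((1/3) n^(1/3) (log n)^(2/3))`; in particular it grows faster than every
polynomial in `n`. -/
theorem result : ∀ᶠ n : ℕ in Filter.atTop,
    Real.exp (1 / 3 * ((n : ℝ) ^ ((1 : ℝ) / 3) * (Real.log n) ^ ((2 : ℝ) / 3))) ≤
      (permIndex (Equiv.Perm (Fin n)) : ℝ) :=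
  exp_le_permIndex2

end Pool.Agent.Results.MP_c6e9f4_al.SuperpolynomialLower
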